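import Pool.Agent.H27.AP.Asm

/-!
# MP_98b15b_nt: `p (a + b + 1) ≥ p a + p b` for almost all `a` and all small `b`

For every `A` and every `δ < 1/3` all but `O(N / (log N)^(A+1))` of the indices `a ≤ N` satisfy
`p (a + b + 1) ≥ p a + p b` for all `b` with `A ≤ b ≤ a^δ`, and all but `O(N / (log N)^14)` satisfy
it for all `b` with `1 ≤ b ≤ a^δ`.
-/

set_option autoImplicit false

namespace Pool.Agent.Results.MP_98b15b_nt.AlmostAllIndices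

/-- the `n`-th prime, `p 1 = 2` -/
noncomputable def p (n : ℕ) : ℕ := Nat.nth Nat.Prime (n - 1)

theorem result :
    (∀ (A : ℕ) (δ : ℝ), 0 < δ → δ < 1 / 3 → ∃ C : ℝ, ∀ N : ℕ, 2 ≤ N →
      (({a : ℕ | 1 ≤ a ∧ a ≤ N ∧ ∃ b : ℕ, 1 ≤ b ∧ A ≤ b ∧ (b : ℝ) ≤ (a : ℝ) ^ δ ∧
        p (a + b + 1) < p a + p b}.ncard : ℕ) : ℝ) ≤ C * (N / Real.log N ^ (A + 1))) ∧
    ∀ δ : ℝ, 0 < δ → δ < 1 / 3 → ∃ C : ℝ, ∀ N : ℕ, 2 ≤ N →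
      (({a : ℕ | 1 ≤ a ∧ a ≤ N ∧ ∃ b : ℕ, 1 ≤ b ∧ (b : ℝ) ≤ (a : ℝ) ^ δ ∧
        p (a + b + 1) < p a + p b}.ncard : ℕ) : ℝ) ≤ C * (N / Real.log N ^ 14) :=
  Pool.Agent.H27.AP.all

end Pool.Agent.Results.MP_98b15b_nt.AlmostAllIndices
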